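import Mathlib
import Pool.Agent.Y703.CT.StmC
import Pool.Agent.TH841.NF.Tm
import Pool.Agent.TH841.SH.ShaDef

/-!
# CTK-TRF: transfer of the geometric points of the cubic twists
-/

set_option autoImplicit false

open scoped Classical

namespace Pool.Agent.Y737.CTK

open NumberField WeierstrassCurve
open Pool.Agent.Y692.QS (Ei w nr toC)
open Pool.Agent.Y703.CT
open Pool.Agent.Y715.T.Gi Pool.Agent.Y715.T.Nr Pool.Agent.Y715.T.Df Pool.Agent.Y715.T.Ell
open Pool.Agent.TH841.NF (Sc tF tF_zero tF_some tF_add ns_iff)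

/-- the curve -/
def E1 {K : Type} [Field K] (D : K) : WeierstrassCurve K := ⟨0, 0, D, 0, 0⟩

/-- homomorphisms to Galois groups are continuous if the stabilizers are neighbourhoods of one -/
lemma cont_of_stab {G F L : Type} [Group G] [TopologicalSpace G] [IsTopologicalGroup G]
    [Field F] [Field L] [Algebra F L] (φ : G →* (L ≃ₐ[F] L))
    (h : ∀ x : L, {g : G | φ g x = x} ∈ nhds (1 : G)) : Continuous φ := by
  apply continuous_of_continuousAt_one
  unfold ContinuousAt
  rw [map_one]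
  intro s hs
  obtain ⟨E, hE, hEs⟩ := (krullTopology_mem_nhds_one_iff F L s).1 hs
  let b := Module.finBasis F E
  have h1 : (⋂ i, {g : G | φ g (b i : L) = b i}) ∈ nhds (1 : G) := by
    rw [Filter.iInter_mem]
    exact fun i => h _
  rw [Filter.mem_map]
  refine Filter.mem_of_superset h1 fun g hg => hEs ?_
  show φ g ∈ E.fixingSubgroup
  rw [IntermediateField.mem_fixingSubgroup_iff]
  intro x hx
  have h2 : (φ g).toAlgHom.toLinearMap ∘ₗ E.val.toLinearMap = E.val.toLinearMap := by
    apply b.ext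
    intro i
    exact Set.mem_iInter.1 hg i
  exact DFunLike.congr_fun h2 ⟨x, hx⟩

lemma it_some {L : Type} [Field L] [Algebra ℚ L] [CharZero L] {I : L} (hI : I ^ 2 + I + 1 = 0) (n : ℕ)
    {x y : L} (h : (W0.baseChange L).toAffine.Nonsingular x y) :
    ∃ h' : (W0.baseChange L).toAffine.Nonsingular (I ^ n * x) y,
      (im (isE L) hI)^[n] (.some x y h) = .some (I ^ n * x) y h' := by
  induction n with
  | zero =>
    have h' : (W0.baseChange L).toAffine.Nonsingular (I ^ 0 * x) y := by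
      rwa [pow_zero, one_mul]
    refine ⟨h', ?_⟩
    rw [Function.iterate_zero, id_eq, Affine.Point.some.injEq]
    exact ⟨by ring, rfl⟩
  | succ n ih =>
    obtain ⟨h', e⟩ := ih
    have h2 : (W0.baseChange L).toAffine.Nonsingular (I ^ (n + 1) * x) y := by
      have := (isE L).im_nons hI h'
      rwa [← mul_assoc, ← pow_succ'] at this
    refine ⟨h2, ?_⟩
    rw [Function.iterate_succ', Function.comp_apply, e, im_some, Affine.Point.some.injEq]
    exact ⟨by ring, rfl⟩

lemma exists_tw {i₀ : QB} (hi : i₀ ^ 2 + i₀ + 1 = 0) {D : Ei} :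
    ∃ (u : QB) (a : GK i₀ → ZMod 3), Tw hi D u a := by
  obtain ⟨u, hu⟩ : ∃ s : QB, s ^ 3 = ev i₀ hi D := IsAlgClosed.exists_pow_nat_eq _ (by norm_num)
  have h3 : i₀ ^ 3 = 1 := i₀_cube hi
  have hc : ∀ σ : GK i₀, ∃ c : ZMod 3, σ u = i₀ ^ (-c).val * u := by
    intro σ
    have h1 : (σ u) ^ 3 = u ^ 3 := by rw [← map_pow, hu, gk_ev]
    obtain ⟨n, hn⟩ := cube_eq hi h1
    refine ⟨-(n : ZMod 3), ?_⟩
    rw [neg_neg, ZMod.val_natCast, hn]
    congr 1
    conv_lhs => rw [← Nat.div_add_mod n 3]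
    rw [pow_add, pow_mul, h3, one_pow, one_mul]
  choose a ha using hc
  exact ⟨u, a, hu, ha⟩

section field

variable {K : Type} [Field K] [NumberField K] (j : Ei ≃+* 𝓞 K)

lemma exists_e (K : Type) [Field K] [NumberField K] : Nonempty (AlgebraicClosure K ≃+* QB) := by
  have h1 : Algebra.IsAlgebraic ℚ (AlgebraicClosure K) := Algebra.IsAlgebraic.trans ℚ K _
  have h2 : IsAlgClosure ℚ (AlgebraicClosure K) := ⟨inferInstance, h1⟩
  exact ⟨(IsAlgClosure.equiv ℚ (AlgebraicClosure K) (AlgebraicClosure ℚ)).toRingEquiv⟩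

variable (e : AlgebraicClosure K ≃+* QB)

/-- the embedding of `K` -/
noncomputable def eK : K →+* QB :=
  (e : AlgebraicClosure K →+* QB).comp (algebraMap K (AlgebraicClosure K))

/-- the embedding of the Eisenstein integers -/
noncomputable def ph : Ei →+* QB := (eK e).comp ((algebraMap (𝓞 K) K).comp (j : Ei →+* 𝓞 K))

omit [NumberField K] in
lemma ph_apply (z : Ei) : ph j e z = e (algebraMap K (AlgebraicClosure K) (j z : K)) := rfl

omit [NumberField K] in
lemma w_rel : (ph j e w) ^ 2 + ph j e w + 1 = 0 := by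
  rw [← map_pow, ← map_add, ← map_one (ph j e), ← map_add]
  have h1 : (w : Ei) ^ 2 + w + 1 = 0 := by
    rw [pow_two, Pool.Agent.Y692.QS.w_sq]; ring
  rw [h1, map_zero]

variable {i₀ : QB} (hi : i₀ ^ 2 + i₀ + 1 = 0) (h : ph j e w = i₀)

include h in
omit [NumberField K] in
lemma ph_ev (z : Ei) : ph j e z = ev i₀ hi z := by
  rw [ev_apply]
  conv_lhs => rw [Pool.Agent.Y692.QS.eta z]
  rw [map_add, map_mul, map_intCast, map_intCast, h]

include hi h in
lemma eK_mem (x : K) : eK e x ∈ KK i₀ := by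
  have key : ∀ a : 𝓞 K, eK e (algebraMap (𝓞 K) K a) ∈ KK i₀ := by
    intro a
    have h1 : eK e (algebraMap (𝓞 K) K a) = ph j e (j.symm a) := by
      show _ = eK e (algebraMap (𝓞 K) K (j (j.symm a)))
      rw [RingEquiv.apply_symm_apply]
    rw [h1, ph_ev j e hi h, ev_apply]
    exact add_mem (intCast_mem _ _) (mul_mem (intCast_mem _ _) i₀_mem)
  obtain ⟨a, b, hb, hx⟩ := IsFractionRing.div_surjective (A := 𝓞 K) x
  rw [← hx, map_div₀]
  exact div_mem (key a) (key b)

omit [NumberField K] in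
/-- conjugation -/
noncomputable def cg (σ : AlgebraicClosure K ≃ₐ[K] AlgebraicClosure K) : QB ≃ₐ[ℚ] QB :=
  AlgEquiv.ofRingEquiv (f := (e.symm.trans (σ : AlgebraicClosure K ≃+* AlgebraicClosure K)).trans e)
    (fun x => DFunLike.congr_fun (Subsingleton.elim
      ((((e.symm.trans (σ : AlgebraicClosure K ≃+* AlgebraicClosure K)).trans e : QB ≃+* QB) :
        QB →+* QB).comp (algebraMap ℚ QB)) (algebraMap ℚ QB)) x)

omit [NumberField K] in
lemma cg_apply (σ : AlgebraicClosure K ≃ₐ[K] AlgebraicClosure K) (x : QB) :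
    cg e σ x = e (σ (e.symm x)) := rfl

include h in
omit [NumberField K] in
lemma cg_fix (σ : AlgebraicClosure K ≃ₐ[K] AlgebraicClosure K) :
    cg e σ ∈ (KK i₀).fixingSubgroup := by
  have h0 : cg e σ i₀ = i₀ := by
    rw [← h, cg_apply, ph_apply, RingEquiv.symm_apply_apply, AlgEquiv.commutes]
  rw [IntermediateField.mem_fixingSubgroup_iff]
  intro x hx
  have hint : IsAlgebraic ℚ i₀ := Algebra.IsAlgebraic.isAlgebraic i₀
  have h1 : x ∈ Algebra.adjoin ℚ {i₀} := by
    rw [← IntermediateField.adjoin_simple_toSubalgebra_of_isAlgebraic hint]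
    exact hx
  clear hx
  induction h1 using Algebra.adjoin_induction with
  | mem y hy =>
    rw [Set.mem_singleton_iff] at hy
    rw [hy, h0]
  | algebraMap r => exact (cg e σ).commutes r
  | add y z _ _ ihy ihz => rw [map_add, ihy, ihz]
  | mul y z _ _ ihy ihz => rw [map_mul, ihy, ihz]

/-- the isomorphism of the Galois groups -/
noncomputable def gg : (AlgebraicClosure K ≃ₐ[K] AlgebraicClosure K) ≃* GK i₀ where
  toFun σ := IntermediateField.fixingSubgroupEquiv (KK i₀) ⟨cg e σ, cg_fix j e h σ⟩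
  invFun τ :=
    { toFun := fun x => e.symm (τ (e x))
      invFun := fun x => e.symm (τ.symm (e x))
      left_inv := fun x => by simp
      right_inv := fun x => by simp
      map_mul' := fun x y => by simp
      map_add' := fun x y => by simp
      commutes' := fun x => by
        have h1 : τ (eK e x) = eK e x := τ.commutes (⟨eK e x, eK_mem j e hi h x⟩ : KK i₀)
        change e.symm (τ (eK e x)) = _
        rw [h1]
        exact e.symm_apply_apply _ }
  left_inv σ := by
    refine AlgEquiv.ext fun x => ?_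
    show e.symm (e (σ (e.symm (e x)))) = σ x
    rw [RingEquiv.symm_apply_apply, RingEquiv.symm_apply_apply]
  right_inv τ := by
    refine AlgEquiv.ext fun x => ?_
    show e (e.symm (τ (e (e.symm x)))) = τ x
    rw [RingEquiv.apply_symm_apply, RingEquiv.apply_symm_apply]
  map_mul' σ τ := by
    refine AlgEquiv.ext fun x => ?_
    show e (σ (τ (e.symm x))) = e (σ (e.symm (e (τ (e.symm x)))))
    rw [RingEquiv.symm_apply_apply]

lemma gg_apply (σ : AlgebraicClosure K ≃ₐ[K] AlgebraicClosure K) (x : QB) :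
    gg j e hi h σ x = e (σ (e.symm x)) := rfl

lemma gg_symm_apply (τ : GK i₀) (x : AlgebraicClosure K) :
    (gg j e hi h).symm τ x = e.symm (τ (e x)) := rfl

lemma gg_cont : Continuous (gg j e hi h) := by
  refine cont_of_stab (gg j e hi h).toMonoidHom fun x => ?_
  have ho : (MulAction.stabilizer (AlgebraicClosure K ≃ₐ[K] AlgebraicClosure K) (e.symm x) :
      Set (AlgebraicClosure K ≃ₐ[K] AlgebraicClosure K)) ∈ nhds 1 :=
    (stabilizer_isOpen_of_isIntegral (K := K) (e.symm x)).mem_nhds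
      (MulAction.stabilizer (AlgebraicClosure K ≃ₐ[K] AlgebraicClosure K) (e.symm x)).one_mem
  refine Filter.mem_of_superset ho fun τ hτ => ?_
  have hτ' : τ (e.symm x) = e.symm x := hτ
  show e (τ (e.symm x)) = x
  rw [hτ', RingEquiv.apply_symm_apply]

lemma gg_symm_cont : Continuous (gg j e hi h).symm := by
  refine cont_of_stab (gg j e hi h).symm.toMonoidHom fun x => ?_
  have ho : (MulAction.stabilizer (GK i₀) (e x) : Set (GK i₀)) ∈ nhds 1 :=
    (stabilizer_isOpen_of_isIntegral (K := KK i₀) (e x)).mem_nhds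
      (MulAction.stabilizer (GK i₀) (e x)).one_mem
  refine Filter.mem_of_superset ho fun τ hτ => ?_
  have hτ' : τ (e x) = e x := hτ
  show e.symm (τ (e x)) = x
  rw [hτ', RingEquiv.symm_apply_apply]

variable {D : Ei} (hD : D ≠ 0) {u : QB} (hu : u ^ 3 = ev i₀ hi D)

include hD hu in
lemma u_ne : u ≠ 0 := by
  rintro rfl
  exact ev_ne hi hD (by rw [← hu]; ring)

include h hD hu in
omit [NumberField K] in
lemma sc : Sc (e : AlgebraicClosure K →+* QB) u⁻¹
    ((E1 (j D : K)).baseChange (AlgebraicClosure K)) (W0.baseChange QB) where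
  hu := inv_ne_zero (u_ne hi hD hu)
  h1 := by
    show algebraMap ℚ QB 0 = e (algebraMap K _ 0) * u⁻¹
    simp
  h2 := by
    show algebraMap ℚ QB 0 = e (algebraMap K _ 0) * u⁻¹ ^ 2
    simp
  h3 := by
    show algebraMap ℚ QB 1 = e (algebraMap K _ (j D : K)) * u⁻¹ ^ 3
    rw [map_one, inv_pow, hu, ← ph_apply, ph_ev j e hi h, mul_inv_cancel₀ (ev_ne hi hD)]
  h4 := by
    show algebraMap ℚ QB 0 = e (algebraMap K _ 0) * u⁻¹ ^ 4
    simp
  h6 := by
    show algebraMap ℚ QB 0 = e (algebraMap K _ 0) * u⁻¹ ^ 6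
    simp

end field

section psi

variable {F1 F2 : Type} [Field F1] [Field F2] {e : F1 ≃+* F2} {u : F2}
  {W : WeierstrassCurve F1} {W' : WeierstrassCurve F2} (S : Sc (e : F1 →+* F2) u W W')

lemma tF_inj : Function.Injective (tF S) := by
  have hu := S.hu
  intro P Q hPQ
  match P, Q, hPQ with
  | 0, 0, _ => rfl
  | 0, .some x y hn, hPQ =>
    rw [tF_zero, tF_some] at hPQ
    exact absurd hPQ.symm (Affine.Point.some_ne_zero _)
  | .some x y hn, 0, hPQ =>
    rw [tF_zero, tF_some] at hPQ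
    exact absurd hPQ (Affine.Point.some_ne_zero _)
  | .some x y hn, .some x' y' hn', hPQ =>
    rw [tF_some, tF_some, Affine.Point.some.injEq] at hPQ
    have h1 : x = x' := e.injective (mul_right_cancel₀ (pow_ne_zero 2 hu) hPQ.1)
    have h2 : y = y' := e.injective (mul_right_cancel₀ (pow_ne_zero 3 hu) hPQ.2)
    subst h1 h2
    rfl

lemma tF_surj : Function.Surjective (tF S) := by
  have hu := S.hu
  intro Q
  match Q with
  | 0 => exact ⟨0, rfl⟩
  | .some x y hn =>
    have h1 : (e : F1 →+* F2) (e.symm (x / u ^ 2)) * u ^ 2 = x := by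
      show e (e.symm (x / u ^ 2)) * u ^ 2 = x
      rw [RingEquiv.apply_symm_apply, div_mul_cancel₀ _ (pow_ne_zero 2 hu)]
    have h2 : (e : F1 →+* F2) (e.symm (y / u ^ 3)) * u ^ 3 = y := by
      show e (e.symm (y / u ^ 3)) * u ^ 3 = y
      rw [RingEquiv.apply_symm_apply, div_mul_cancel₀ _ (pow_ne_zero 3 hu)]
    have h3 : W.toAffine.Nonsingular (e.symm (x / u ^ 2)) (e.symm (y / u ^ 3)) := by
      rw [← ns_iff S, h1, h2]
      exact hn
    refine ⟨.some _ _ h3, ?_⟩
    rw [tF_some, Affine.Point.some.injEq]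
    exact ⟨h1, h2⟩

end psi

section main

variable {K : Type} [Field K] [NumberField K] {W : WeierstrassCurve K}
  {e : AlgebraicClosure K ≃+* QB} {v : QB}
  (S : Sc (e : AlgebraicClosure K →+* QB) v (W.baseChange (AlgebraicClosure K)) (W0.baseChange QB))

/-- the transfer -/
noncomputable def Psi : Pool.Agent.TH841.SH.D.Pt W (AlgebraicClosure K) ≃+ Pt QB :=
  AddEquiv.ofBijective (⟨⟨tF S, rfl⟩, tF_add S⟩ :
    Pool.Agent.TH841.SH.D.Pt W (AlgebraicClosure K) →+ Pt QB) ⟨tF_inj S, tF_surj S⟩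

omit [NumberField K] in
lemma Psi_some (x y : AlgebraicClosure K)
    (hn : (W.baseChange (AlgebraicClosure K)).toAffine.Nonsingular x y) :
    Psi S (Affine.Point.some x y hn) = .some (e x * v ^ 2) (e y * v ^ 3) ((ns_iff S x y).2 hn) :=
  rfl

omit [NumberField K] in
lemma Psi_zero : Psi S 0 = 0 := rfl

lemma pt_ext {F : Type} [Field F] {W : WeierstrassCurve F} {x y x' y' : F}
    (h : W.toAffine.Nonsingular x y) (h' : W.toAffine.Nonsingular x' y') (hx : x = x')
    (hy : y = y') : (Affine.Point.some x y h : W.toAffine.Point) = .some x' y' h' := by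
  subst hx hy
  rfl

end main

theorem trfA (K : Type) [Field K] [NumberField K] (j : Ei ≃+* 𝓞 K) (D : Ei) (hD : D ≠ 0) :
  ∃ (e : AlgebraicClosure K ≃+* QB) (i₀ : QB) (hi : i₀ ^ 2 + i₀ + 1 = 0) (u : QB)
    (a : GK i₀ → ZMod 3) (Ψ : Pool.Agent.TH841.SH.D.Pt (E1 (j D : K)) (AlgebraicClosure K) ≃+ Pt QB)
    (g : Pool.Agent.TH841.SH.D.Gal K ≃* GK i₀),
    Tw hi D u a ∧ (∀ z : Ei, e (algebraMap K (AlgebraicClosure K) (j z : K)) = ev i₀ hi z) ∧
    Continuous g ∧ Continuous g.symm ∧
    (∀ (σ : Pool.Agent.TH841.SH.D.Gal K) (x : AlgebraicClosure K), e (σ x) = g σ (e x)) ∧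
    (∀ (x y : AlgebraicClosure K) (h), ∃ h', Ψ (Affine.Point.some x y h) =
      Affine.Point.some (e x / u ^ 2) (e y / u ^ 3) h') ∧
    ∀ (σ : Pool.Agent.TH841.SH.D.Gal K)
      (P : Pool.Agent.TH841.SH.D.Pt (E1 (j D : K)) (AlgebraicClosure K)),
      Ψ (Pool.Agent.TH841.SH.D.act (E1 (j D : K)) σ.toAlgHom P) = act hi a (g σ) (Ψ P) := by
  obtain ⟨e⟩ := exists_e K
  obtain ⟨i₀, h⟩ : ∃ i₀, ph j e w = i₀ := ⟨_, rfl⟩
  have hi : i₀ ^ 2 + i₀ + 1 = 0 := by rw [← h]; exact w_rel j e
  obtain ⟨u, a, hT⟩ := exists_tw hi (D := D)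
  have hu0 : u ≠ 0 := u_ne hi hD hT.cube
  have S := sc j e hi h hD hT.cube
  have hgs : ∀ (σ : Pool.Agent.TH841.SH.D.Gal K) (x : AlgebraicClosure K),
      e (σ x) = gg j e hi h σ (e x) := by
    intro σ x
    rw [gg_apply, RingEquiv.symm_apply_apply]
  refine ⟨e, i₀, hi, u, a, Psi S, gg j e hi h, hT, fun z => ph_ev j e hi h z, gg_cont j e hi h,
    gg_symm_cont j e hi h, hgs, ?_, ?_⟩
  · intro x y hn
    have e1 : e x * u⁻¹ ^ 2 = e x / u ^ 2 := by rw [inv_pow, div_eq_mul_inv]
    have e2 : e y * u⁻¹ ^ 3 = e y / u ^ 3 := by rw [inv_pow, div_eq_mul_inv]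
    have h1 := (ns_iff S x y).2 hn
    have h2 : (W0.baseChange QB).toAffine.Nonsingular (e x / u ^ 2) (e y / u ^ 3) := by
      rw [← e1, ← e2]
      exact h1
    exact ⟨h2, (Psi_some S x y hn).trans (pt_ext _ _ e1 e2)⟩
  · intro σ P
    rcases P with _ | ⟨x, y, hn⟩
    · show Psi S (Pool.Agent.TH841.SH.D.act (E1 (j D : K)) σ.toAlgHom 0) =
        act hi a (gg j e hi h σ) (Psi S 0)
      rw [map_zero, map_zero]
      show (0 : Pt QB) = jj hi (a _) (pm (gh _) 0)
      rw [map_zero]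
      unfold jj
      exact (Function.iterate_fixed (map_zero _) _).symm
    · have hσn : ((E1 (j D : K)).baseChange (AlgebraicClosure K)).toAffine.Nonsingular
          (σ.toAlgHom x) (σ.toAlgHom y) :=
        (Affine.baseChange_nonsingular (E1 (j D : K)) σ.toAlgHom.injective ..).mpr hn
      have e1 : Pool.Agent.TH841.SH.D.act (E1 (j D : K)) σ.toAlgHom (Affine.Point.some x y hn) =
        (Affine.Point.some (σ.toAlgHom x) (σ.toAlgHom y) hσn) := rfl
      have hn2 := (ns_iff S x y).2 hn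
      have hn3 : (W0.baseChange QB).toAffine.Nonsingular (gh (gg j e hi h σ) (e x * u⁻¹ ^ 2))
          (gh (gg j e hi h σ) (e y * u⁻¹ ^ 3)) :=
        (Affine.baseChange_nonsingular W0.toAffine (gh (gg j e hi h σ)).injective ..).mpr hn2
      have e2 : act hi a (gg j e hi h σ) (Psi S (Affine.Point.some x y hn)) =
          jj hi (a (gg j e hi h σ)) (.some _ _ hn3) := rfl
      obtain ⟨h4, e3⟩ := it_some hi (a (gg j e hi h σ)).val hn3
      refine (congrArg (Psi S) e1).trans (Eq.trans ?_ (e3.symm.trans e2.symm))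
      refine (Psi_some S _ _ hσn).trans (pt_ext _ _ ?_ ?_)
      · show e (σ x) * u⁻¹ ^ 2 = i₀ ^ (a (gg j e hi h σ)).val * (gg j e hi h σ) (e x * u⁻¹ ^ 2)
        have hI3 := i₀_cube hi
        rw [map_mul, ← hgs, map_pow, map_inv₀, hT.act]
        have e4 : ∀ c : ZMod 3, (i₀ ^ (-c).val) ^ 2 = i₀ ^ c.val := by
          intro c
          rcases z3 c with rfl | rfl | rfl
          · simp
          · have a1 : (-1 : ZMod 3).val = 2 := by decide
            have a2 : (1 : ZMod 3).val = 1 := by decide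
            rw [a1, a2]
            linear_combination i₀ * hI3
          · have a1 : (-1 : ZMod 3).val = 2 := by decide
            have a2 : (1 : ZMod 3).val = 1 := by decide
            rw [neg_neg, a1, a2]
            ring
        have hi0 : i₀ ≠ 0 := by
          rintro rfl
          norm_num at hI3
        rw [mul_inv, mul_pow, inv_pow (i₀ ^ _), e4]
        have h5 : i₀ ^ (a (gg j e hi h σ)).val ≠ 0 := pow_ne_zero _ hi0
        field_simp
      · show e (σ y) * u⁻¹ ^ 3 = (gg j e hi h σ) (e y * u⁻¹ ^ 3)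
        rw [map_mul, ← hgs, map_pow, map_inv₀, inv_pow, inv_pow, hT.cube, ← map_pow, hT.cube, gk_ev]

end Pool.Agent.Y737.CTK
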