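import Pool.Agent.Y696.CTK.Stm
import Pool.Agent.Y737.CTK.TrfA

/-!
# CTK-TRF
-/

set_option autoImplicit false

namespace Pool.Agent.Y737.CTK

theorem trf : Pool.Agent.Y696.CTK.S_TRF := fun K _ _ j D hD => trfA K j D hD

end Pool.Agent.Y737.CTK
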